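import Pool.Agent.Helper44.T5g.Facts

/-!
# T5b: the windows below a level, the joint code with the number of split levels as a parameter
-/

set_option autoImplicit false

namespace Pool.Agent.Helper44.T5g

open Pool.Agent.Helper44.T5b

open Finset
open Pool.Agent.Helper5.ET hiding Key Mk AA Rp keysOf el ext
open Pool.Agent.Helper27.T4
open Pool.Agent.Helper27.T5b Pool.Agent.Helper37.T5g
open Pool.Agent.Helper30.T5g hiding pz_prime pz_inj
open Pool.Agent.Helper22.HW Pool.Agent.Helper57.T5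
open Pool.Agent.Helper39.T5 Pool.Agent.Helper50.T5 Pool.Agent.Helper42.T5.Pr
open Pool.Agent.Helper84.T5g
open Pool.Agent.Helper27.T5 (sp gw)

/-! ## the windows -/

/-- the part of the elements below the static level `t ≥ 1` -/
noncomputable def Zw (m : Sq) (k l t : ℕ) (w : Key → ℕ) : Finset ℕ :=
  ((Fintype.piFinset (fun u : Fin (rL m k l - t) => Ys m k l (t + u))) ×ˢ Vw m k l w).image
    (fun q => ∑ u : Fin (rL m k l - t), cs m k l (t + u) w 0 (q.1 u) + Un m k l * q.2)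

theorem mem_Zw {m : Sq} {k l s : ℕ} {w : Key → ℕ} {u : ℕ} : u ∈ Zw m k l s w ↔
    ∃ y : ℕ → Fin 3 → ℕ, (∀ t, s ≤ t → t < rL m k l → y t ∈ Ys m k l t) ∧ ∃ v ∈ Vw m k l w,
      u = ∑ t ∈ Ico s (rL m k l), cs m k l t w 0 (y t) + Un m k l * v := by
  unfold Zw
  simp only [mem_image, mem_product, Fintype.mem_piFinset, Prod.exists]
  set r := rL m k l with hr
  have key : ∀ g : ℕ → ℕ, ∑ t ∈ Ico s r, g t = ∑ t : Fin (r - s), g (s + t) := by
    intro g
    rw [Finset.sum_Ico_eq_sum_range, ← Fin.sum_univ_eq_sum_range (fun i => g (s + i))]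
  constructor
  · rintro ⟨y, v, ⟨hy, hv⟩, rfl⟩
    refine ⟨fun t => if h : t - s < r - s then y ⟨t - s, h⟩ else 0, ?_, v, hv, ?_⟩
    · intro t h1 h2
      have h3 : t - s < r - s := by omega
      have h4 := hy ⟨t - s, h3⟩
      simp only [show s + (t - s) = t by omega] at h4
      simp only [dif_pos h3]
      exact h4
    · congr 1
      rw [key]
      refine Finset.sum_congr rfl (fun t _ => ?_)
      have h3 : s + (t : ℕ) - s < r - s := by have := t.2; omega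
      have h4 : (⟨s + (t : ℕ) - s, h3⟩ : Fin (r - s)) = t := Fin.ext (by simp)
      simp only [dif_pos h3, h4]
  · rintro ⟨y, hy, v, hv, rfl⟩
    refine ⟨fun t => y (s + t), v, ⟨fun t => hy _ (by omega) (by have := t.2; omega), hv⟩, ?_⟩
    rw [key]

/-- more levels -/
theorem Zw_split {m : Sq} {k l s : ℕ} {w : Key → ℕ} (h : ℕ) (hs : s + h ≤ rL m k l) {u : ℕ}
    (hu : u ∈ Zw m k l s w) : ∃ y : ℕ → Fin 3 → ℕ,
      (∀ r < h, y r ∈ Ys m k l (s + r)) ∧ ∃ u' ∈ Zw m k l (s + h) w,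
        u = ∑ r ∈ range h, cs m k l (s + r) w 0 (y r) + u' := by
  obtain ⟨y, hy, v, hv, rfl⟩ := mem_Zw.1 hu
  refine ⟨fun r => y (s + r), fun r hr => hy _ (by omega) (by omega), _,
    mem_Zw.2 ⟨y, fun t h1 h2 => hy t (by omega) h2, v, hv, rfl⟩, ?_⟩
  rw [← add_assoc, ← Finset.sum_Ico_consecutive _ (show s ≤ s + h by omega) hs,
    Finset.sum_Ico_eq_sum_range _ s (s + h), Nat.add_sub_cancel_left]

theorem okey_pos {m : Sq} {k l t : ℕ} (ht : t ≠ 0) (x : JF → ℕ) : okey m k l t x = 0 := by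
  unfold okey
  rw [if_neg ht]

/-- the elements of a state, seen from the static level `s ≥ 1` -/
theorem AA_split {m : Sq} {k l s : ℕ} {w : Key → ℕ} (hs : s ≤ rL m k l) (hs1 : 1 ≤ s) :
    AA m k l w ⊆ scaleO (XJ m k l) (c0 m k l w) s (Ys m k l)
      (fun x t y => cs m k l t w (okey m k l t x) y) (Zw m k l s w) := by
  intro a ha
  unfold AA at ha
  rw [mem_image] at ha
  obtain ⟨⟨⟨x, y⟩, u⟩, hq, rfl⟩ := ha
  simp only [mem_product, Fintype.mem_piFinset, mem_image] at hq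
  obtain ⟨⟨hx, hy⟩, v, hv, rfl⟩ := hq
  unfold scaleO
  rw [mem_image]
  set Y : ℕ → Fin 3 → ℕ := fun t => if h : t < rL m k l then y ⟨t, h⟩ else 0 with hY
  have hYt : ∀ t : Fin (rL m k l), Y t = y t := by
    intro t
    simp [hY]
  refine ⟨((x, fun t : Fin s => Y t),
    ∑ t ∈ Ico s (rL m k l), cs m k l t w 0 (Y t) + Un m k l * v), ?_, ?_⟩
  · simp only [mem_product, Fintype.mem_piFinset]
    refine ⟨⟨hx, fun t => ?_⟩, mem_Zw.2 ⟨Y, fun t _ h2 => ?_, v, hv, rfl⟩⟩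
    · have h2 : (t : ℕ) < rL m k l := by have := t.2; omega
      have := hy ⟨t, h2⟩
      rw [← hYt] at this
      exact this
    · have := hy ⟨t, h2⟩
      rw [← hYt] at this
      exact this
  · simp only
    unfold el
    have h1 : ∑ t : Fin (rL m k l), cs m k l t w (okey m k l t x) (y t) =
        ∑ t ∈ range (rL m k l), cs m k l t w (okey m k l t x) (Y t) := by
      rw [← Fin.sum_univ_eq_sum_range (fun t => cs m k l t w (okey m k l t x) (Y t))]
      exact Finset.sum_congr rfl (fun t _ => by rw [hYt])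
    have h2 : ∑ t : Fin s, cs m k l t w (okey m k l t x) (Y t) =
        ∑ t ∈ range s, cs m k l t w (okey m k l t x) (Y t) :=
      Fin.sum_univ_eq_sum_range (fun t => cs m k l t w (okey m k l t x) (Y t)) s
    have h3 : ∑ t ∈ Ico s (rL m k l), cs m k l t w 0 (Y t) =
        ∑ t ∈ Ico s (rL m k l), cs m k l t w (okey m k l t x) (Y t) := by
      refine Finset.sum_congr rfl (fun t ht => ?_)
      rw [okey_pos (by have := (mem_Ico.1 ht).1; omega)]
    rw [h1, h2, h3, ← Finset.sum_range_add_sum_Ico _ hs]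
    ring

/-- divisibility of the fronts of one state -/
theorem Jn_dvd_FF {m : Sq} (hm : m.Ok) (k l t : ℕ) : Jn m k (sL m k l) l ∣ FF m k l t :=
  Jn_dvd m k _ (lt_ez hm _ l).le

theorem dvd_Zw {m : Sq} {k l s : ℕ} {w : Key → ℕ} (hm : m.Ok) (hs : s ≤ rL m k l) {u : ℕ}
    (hu : u ∈ Zw m k l s w) : Jn m k (sL m k l) l * LL (QQ m k (sL m k l)) s ∣ u := by
  obtain ⟨y, hy, v, hv, rfl⟩ := mem_Zw.1 hu
  refine dvd_add (Finset.dvd_sum (fun t ht => ?_)) ?_
  · rw [mem_Ico] at ht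
    refine dvd_trans ?_ (dvd_cs m k l t w 0 (y t))
    exact Nat.mul_dvd_mul (Jn_dvd_FF hm k l (t + 1)) (LL_dvd _ ht.1)
  · refine Dvd.dvd.mul_right ?_ _
    unfold Un
    exact Nat.mul_dvd_mul_left _ (LL_dvd _ hs)

/-! ## the joint code -/

/-- the joint code with the number of split levels and the front as parameters -/
noncomputable def c0G (m : Sq) (k s E l : ℕ) (w : Key → ℕ) (x : JF → ℕ) : ℕ :=
  cv (pJ_prime k s) (pJ_inj k s) (aJ m k s E) (fun i => Lg (pJ k s i) (aJ m k s E i) (x i) +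
    ((w (Key.J l i (maskJ (preJ m k l i) x)) : ℕ) : ZMod (pJ k s i ^ aJ m k s E i)))

theorem c0_eq (m : Sq) (k l : ℕ) (w : Key → ℕ) (x : JF → ℕ) :
    c0 m k l w x = c0G m k (sL m k l) (ef m k l 0) l w x := rfl

theorem c0G_lt (m : Sq) (k s E l : ℕ) (w : Key → ℕ) (x : JF → ℕ) : c0G m k s E l w x < Jn m k s E :=
  cv_lt (pJ_prime k s) (pJ_inj k s) _ _

theorem c0_lt (m : Sq) (k l : ℕ) (w : Key → ℕ) (x : JF → ℕ) : c0 m k l w x < FF m k l 0 :=
  c0G_lt _ _ _ _ _ _ _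

/-- the components of the joint code modulo lower powers -/
theorem c0G_cast_low (m : Sq) (k s E l : ℕ) (w : Key → ℕ) (x : JF → ℕ) (i : JF) {e : ℕ}
    (he : e ≤ aJ m k s E i) (hx : (x i).Coprime (pJ k s i)) :
    ((c0G m k s E l w x : ℕ) : ZMod (pJ k s i ^ e)) = Lg (pJ k s i) e (x i) +
      ((w (Key.J l i (maskJ (preJ m k l i) x)) : ℕ) : ZMod (pJ k s i ^ e)) := by
  have h0 : ((c0G m k s E l w x : ℕ) : ZMod (pJ k s i ^ aJ m k s E i)) = _ :=
    cv_cast_comp (pJ_prime k s) (pJ_inj k s) _ _ i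
  have h1 := congrArg (ZMod.castHom (pow_dvd_pow (pJ k s i) he) (ZMod (pJ k s i ^ e))) h0
  rw [map_natCast] at h1
  rw [h1, map_add, map_natCast, Lg_red (pJ_prime k s i) (pJ_ne_two k s i) _ _ _ hx he]

/-- admissible vectors with the number of split levels as a parameter -/
noncomputable def XJG (m : Sq) (k s l : ℕ) : Finset (JF → ℕ) :=
  Fintype.piFinset (fun i => if aJ m k s l i = 0 then {1} else T1 (pJ k s i) (aJ m k s l i))

theorem XJ_eq (m : Sq) (k l : ℕ) : XJ m k l = XJG m k (sL m k l) l := rfl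

theorem XJG_spec {m : Sq} {k s l : ℕ} {x : JF → ℕ} (hx : x ∈ XJG m k s l) (i : JF) :
    Pool.Agent.Helper44.T5.Good (x i) ∧ (x i).Coprime (pJ k s i) ∧
      ((aJ m k s l i = 0 ∧ x i = 1) ∨ (x i) ^ 2 < pJ k s i ^ aJ m k s l i) := by
  have h := (Fintype.mem_piFinset.1 hx) i
  split_ifs at h with h0
  · rw [mem_singleton] at h
    rw [h]
    exact ⟨Or.inl rfl, Nat.coprime_one_left _, Or.inl ⟨h0, rfl⟩⟩
  · obtain ⟨h1, h2, h3⟩ := mem_T1.1 h
    exact ⟨Or.inr h1, h2, Or.inr h3⟩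

/-- the quotient of the product of two coordinates -/
theorem quot_lt {p a b x y : ℕ} (hp : 1 < p) (hab : b ≤ a)
    (hx : (a = 0 ∧ x = 1) ∨ x ^ 2 < p ^ a) (hy : (b = 0 ∧ y = 1) ∨ y ^ 2 < p ^ b) :
    (x * y) / p ^ (b + 1) < p ^ ((a - b) / 2) := by
  have h1 : x ^ 2 ≤ p ^ a := by
    rcases hx with ⟨h, rfl⟩ | h
    · rw [h]; simp
    · exact h.le
  have h2 : y ^ 2 ≤ p ^ b := by
    rcases hy with ⟨h, rfl⟩ | h
    · rw [h]; simp
    · exact h.le
  have h3 : (x * y) ^ 2 < (p ^ (b + 1 + (a - b) / 2)) ^ 2 := by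
    calc (x * y) ^ 2 = x ^ 2 * y ^ 2 := by ring
      _ ≤ p ^ a * p ^ b := Nat.mul_le_mul h1 h2
      _ = p ^ (a + b) := (pow_add _ _ _).symm
      _ < p ^ ((b + 1 + (a - b) / 2) * 2) := Nat.pow_lt_pow_right hp (by omega)
      _ = _ := pow_mul _ _ _
  have h4 := lt_of_pow_lt_pow_left₀ 2 (Nat.zero_le _) h3
  rw [pow_add] at h4
  exact Nat.div_lt_of_lt_mul h4

end Pool.Agent.Helper44.T5g
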